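import Mathlib

open Set NNReal

namespace Pool.Agent.H519Z.Bicomb

variable {X : Type*} [MetricSpace X]

/-- A geodesic bicombing: a continuous map `σ : X × X × [0,1] → X` such that each
`σ (x, y, ·)` is a constant-speed geodesic from `x` to `y`. -/
structure IsBicombing (σ : X × X × unitInterval → X) : Prop where
  continuous : Continuous σ
  start : ∀ x y : X, σ (x, y, 0) = x
  stop : ∀ x y : X, σ (x, y, 1) = y
  geodesic : ∀ (x y : X) (s t : unitInterval),
    dist (σ (x, y, s)) (σ (x, y, t)) = |(s : ℝ) - (t : ℝ)| * dist x y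

/-- Consistency: for `s < t` the image of the `σ`-geodesic between `σ_{xy}(s)` and `σ_{xy}(t)`
is the image of `σ_{xy}` restricted to `[s,t]`. -/
def IsConsistent (σ : X × X × unitInterval → X) : Prop :=
  ∀ (x y : X) (s t : unitInterval), s < t →
    range (fun u : unitInterval => σ (σ (x, y, s), σ (x, y, t), u))
      = (fun u : unitInterval => σ (x, y, u)) '' Icc s t

/-- The conical inequality. -/
def IsConical (σ : X × X × unitInterval → X) : Prop :=
  ∀ (x y x' y' : X) (t : unitInterval),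
    dist (σ (x, y, t)) (σ (x', y', t)) ≤ (1 - (t : ℝ)) * dist x x' + (t : ℝ) * dist y y'

/-- A `σ`-ray: a geodesic ray `ξ : [0,∞) → X` such that for every `s > 0` the restriction of `ξ`
to `[0,s]` is the reparametrised `σ`-geodesic from `ξ 0` to `ξ s`. -/
structure IsRay (σ : X × X × unitInterval → X) (ξ : ℝ≥0 → X) : Prop where
  isometry : Isometry ξ
  restrict : ∀ s : ℝ≥0, 0 < s → ∀ (u : unitInterval) (t : ℝ≥0), (t : ℝ) = (u : ℝ) * (s : ℝ) →
    ξ t = σ (ξ 0, ξ s, u)

/-- Two `σ`-rays are equivalent when they stay at bounded distance. -/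
def raySetoid (σ : X × X × unitInterval → X) : Setoid {ξ : ℝ≥0 → X // IsRay σ ξ} where
  r ξ η := ∃ C : ℝ, ∀ t : ℝ≥0, dist (ξ.1 t) (η.1 t) ≤ C
  iseqv :=
    { refl := fun _ => ⟨0, fun _ => (dist_self _).le⟩
      symm := fun ⟨C, h⟩ => ⟨C, fun t => (dist_comm _ _).le.trans (h t)⟩
      trans := fun ⟨C, h⟩ ⟨D, k⟩ =>
        ⟨C + D, fun t => (dist_triangle _ _ _).trans (add_le_add (h t) (k t))⟩ }

/-- The boundary `∂_σ X`: the set of equivalence classes of `σ`-rays. -/
def Boundary (σ : X × X × unitInterval → X) : Type _ := Quotient (raySetoid σ)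

end Pool.Agent.H519Z.Bicomb
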