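import Pool.Agent.H519Z.Bicomb.Defs

open Set NNReal Filter Topology

namespace Pool.Agent.H519Z.Bicomb

variable {X : Type*} [MetricSpace X]

/-- the unit-speed parametrisation of the geodesic from `o` to `y`, stopped at `y` -/
noncomputable def seg (σ : X × X × unitInterval → X) (o y : X) (t : ℝ≥0) : X :=
  σ (o, y, projIcc (0 : ℝ) 1 zero_le_one ((t : ℝ) / dist o y))

lemma proj_val {d : ℝ} (hd : 0 < d) {t : ℝ≥0} (ht : (t : ℝ) ≤ d) :
    ((projIcc (0 : ℝ) 1 zero_le_one ((t : ℝ) / d) : unitInterval) : ℝ) = (t : ℝ) / d := by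
  exact congrArg Subtype.val
    (projIcc_of_mem (zero_le_one (α := ℝ)) ⟨div_nonneg t.2 hd.le, (div_le_one hd).2 ht⟩)

lemma seg_dist_le {σ : X × X × unitInterval → X} (hσ : IsBicombing σ) (o y : X) (t : ℝ≥0) :
    dist (seg σ o y t) o ≤ t := by
  have h := hσ.geodesic o y (projIcc (0 : ℝ) 1 zero_le_one ((t : ℝ) / dist o y)) 0
  rw [hσ.start] at h
  unfold seg
  rw [h]
  rcases (dist_nonneg (x := o) (y := y)).eq_or_lt with h0 | h0
  · rw [← h0]; simp
  · have h1 : ((projIcc (0 : ℝ) 1 zero_le_one ((t : ℝ) / dist o y) : unitInterval) : ℝ)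
        ≤ (t : ℝ) / dist o y := by
      rw [coe_projIcc]
      exact max_le (div_nonneg t.2 h0.le) (min_le_right _ _)
    have h2 : (0 : ℝ) ≤ ((projIcc (0 : ℝ) 1 zero_le_one ((t : ℝ) / dist o y) : unitInterval) : ℝ) :=
      (projIcc (0 : ℝ) 1 zero_le_one ((t : ℝ) / dist o y)).2.1
    simp only [Icc.coe_zero, sub_zero]
    rw [abs_of_nonneg h2]
    calc _ ≤ (t : ℝ) / dist o y * dist o y := mul_le_mul_of_nonneg_right h1 h0.le
      _ = t := by field_simp

lemma seg_dist {σ : X × X × unitInterval → X} (hσ : IsBicombing σ) (o y : X) {s t : ℝ≥0}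
    (hd : 0 < dist o y) (hs : (s : ℝ) ≤ dist o y) (ht : (t : ℝ) ≤ dist o y) :
    dist (seg σ o y s) (seg σ o y t) = |(s : ℝ) - t| := by
  unfold seg
  rw [hσ.geodesic, proj_val hd hs, proj_val hd ht, ← _root_.sub_div, abs_div, abs_of_pos hd]
  field_simp

lemma seg_zero {σ : X × X × unitInterval → X} (hσ : IsBicombing σ) (o y : X) :
    seg σ o y 0 = o := by
  have := seg_dist_le hσ o y 0
  simpa using this

lemma seg_dist_end {σ : X × X × unitInterval → X} (hσ : IsBicombing σ) (o y : X) {t : ℝ≥0}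
    (hd : 0 < dist o y) (ht : (t : ℝ) ≤ dist o y) :
    dist (seg σ o y t) y = dist o y - t := by
  have h := hσ.geodesic o y (projIcc (0 : ℝ) 1 zero_le_one ((t : ℝ) / dist o y)) 1
  rw [hσ.stop] at h
  unfold seg
  rw [h, proj_val hd ht]
  simp only [Icc.coe_one]
  rw [abs_of_nonpos (by linarith [(div_le_one hd).2 ht])]
  field_simp
  ring

lemma seg_restrict {σ : X × X × unitInterval → X} (hσ : IsBicombing σ) (hc : IsConsistent σ)
    (o y : X) {s : ℝ≥0} (hs0 : 0 < s) (hs : (s : ℝ) ≤ dist o y) (u : unitInterval) (t : ℝ≥0)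
    (ht : (t : ℝ) = (u : ℝ) * (s : ℝ)) :
    seg σ o y t = σ (o, seg σ o y s, u) := by
  have hs0' : (0 : ℝ) < s := hs0
  have hd : 0 < dist o y := hs0'.trans_le hs
  set s' : unitInterval := projIcc (0 : ℝ) 1 zero_le_one ((s : ℝ) / dist o y) with hs'
  have hs'v : (s' : ℝ) = (s : ℝ) / dist o y := proj_val hd hs
  have hlt : (0 : unitInterval) < s' := by
    change (0 : ℝ) < (s' : ℝ)
    rw [hs'v]; positivity
  have h := hc o y 0 s' hlt
  rw [hσ.start] at h
  have hmem : σ (o, σ (o, y, s'), u) ∈ (fun u : unitInterval => σ (o, y, u)) '' Icc 0 s' := by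
    rw [← h]; exact ⟨u, rfl⟩
  obtain ⟨v, -, hv⟩ := hmem
  have e1 := hσ.geodesic o y v 0
  have e2 := hσ.geodesic o (σ (o, y, s')) u 0
  have e3 := hσ.geodesic o y 0 s'
  rw [hσ.start] at e1 e2 e3
  simp only [Icc.coe_zero, sub_zero, zero_sub, abs_neg] at e1 e2 e3
  rw [abs_of_nonneg v.2.1] at e1
  rw [abs_of_nonneg u.2.1] at e2
  rw [abs_of_nonneg s'.2.1, hs'v] at e3
  have hv' : σ (o, y, v) = σ (o, σ (o, y, s'), u) := hv
  rw [hv', e2, e3] at e1
  have hts : (t : ℝ) ≤ dist o y := by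
    rw [ht]
    calc (u : ℝ) * s ≤ 1 * s := mul_le_mul_of_nonneg_right u.2.2 hs0'.le
      _ = s := one_mul _
      _ ≤ _ := hs
  have hvt : projIcc (0 : ℝ) 1 zero_le_one ((t : ℝ) / dist o y) = v := by
    apply Subtype.ext
    rw [proj_val hd hts, ht, div_eq_iff hd.ne', ← e1]
    field_simp
  change σ (o, y, projIcc (0 : ℝ) 1 zero_le_one ((t : ℝ) / dist o y)) = σ (o, σ (o, y, s'), u)
  rw [hvt, hv']

lemma limit_ray [ProperSpace X] {σ : X × X × unitInterval → X} (hσ : IsBicombing σ)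
    (hc : IsConsistent σ) (o : X) (y : ℕ → X) (𝒰 : Ultrafilter ℕ)
    (hy : Tendsto (fun n => dist o (y n)) 𝒰 atTop) :
    ∃ ξ : ℝ≥0 → X, IsRay σ ξ ∧ ∀ t, Tendsto (fun n => seg σ o (y n) t) 𝒰 (𝓝 (ξ t)) := by
  have hlim : ∀ t : ℝ≥0, ∃ x, Tendsto (fun n => seg σ o (y n) t) 𝒰 (𝓝 x) := by
    intro t
    have hK : IsCompact (Metric.closedBall o (t : ℝ)) := isCompact_closedBall _ _
    have hle : (𝒰.map (fun n => seg σ o (y n) t) : Filter X) ≤ 𝓟 (Metric.closedBall o (t : ℝ)) := by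
      rw [le_principal_iff]
      change ∀ᶠ n in (𝒰 : Filter ℕ), seg σ o (y n) t ∈ Metric.closedBall o (t : ℝ)
      exact Eventually.of_forall fun n => seg_dist_le hσ o (y n) t
    obtain ⟨x, -, hx⟩ := hK.ultrafilter_le_nhds (𝒰.map (fun n => seg σ o (y n) t)) hle
    exact ⟨x, hx⟩
  choose ξ hξ using hlim
  have h0 : ξ 0 = o := by
    have h := hξ 0
    simp only [seg_zero hσ] at h
    exact tendsto_nhds_unique h tendsto_const_nhds
  refine ⟨ξ, ⟨?_, ?_⟩, hξ⟩
  · refine Isometry.of_dist_eq fun s t => ?_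
    have h1 := (hξ s).dist (hξ t)
    have h2 : ∀ᶠ n in (𝒰 : Filter ℕ),
        dist (seg σ o (y n) s) (seg σ o (y n) t) = |(s : ℝ) - t| := by
      filter_upwards [hy.eventually_gt_atTop 0, hy.eventually_ge_atTop (s : ℝ),
        hy.eventually_ge_atTop (t : ℝ)] with n a b c
      exact seg_dist hσ o (y n) a b c
    have h3 := tendsto_nhds_unique h1 (tendsto_const_nhds.congr' (h2.mono fun n hn => hn.symm))
    rw [h3, NNReal.dist_eq]
  · intro s hs u t ht
    have h1 : Tendsto (fun n => σ (o, seg σ o (y n) s, u)) 𝒰 (𝓝 (σ (o, ξ s, u))) :=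
      (hσ.continuous.tendsto _).comp
        (tendsto_const_nhds.prodMk_nhds ((hξ s).prodMk_nhds tendsto_const_nhds))
    have h2 : ∀ᶠ n in (𝒰 : Filter ℕ), seg σ o (y n) t = σ (o, seg σ o (y n) s, u) := by
      filter_upwards [hy.eventually_ge_atTop (s : ℝ)] with n b
      exact seg_restrict hσ hc o (y n) hs b u t ht
    rw [h0]
    exact tendsto_nhds_unique ((hξ t).congr' h2) h1

lemma exists_radius (G : Type*) [Group G] [MulAction G X] [IsIsometricSMul G X]
    [CompactSpace (Quotient (MulAction.orbitRel G X))] (o : X) :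
    ∃ R : ℝ, ∀ x : X, ∃ g : G, dist (g • x) o ≤ R := by
  let π : X → Quotient (MulAction.orbitRel G X) := Quotient.mk _
  have hπ : IsOpenMap π := isOpenMap_quotient_mk'_mul
  have hcov : (univ : Set (Quotient (MulAction.orbitRel G X)))
      ⊆ ⋃ n : ℕ, π '' Metric.ball o (n : ℝ) := by
    intro q _
    obtain ⟨x, rfl⟩ := Quotient.exists_rep q
    obtain ⟨n, hn⟩ := exists_nat_gt (dist x o)
    exact mem_iUnion.2 ⟨n, x, hn, rfl⟩
  obtain ⟨n, hn⟩ := isCompact_univ.elim_directed_cover (fun n : ℕ => π '' Metric.ball o (n : ℝ))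
    (fun n => hπ _ Metric.isOpen_ball) hcov
    (directed_of_isDirected_le fun a b hab =>
      image_mono (Metric.ball_subset_ball (Nat.cast_le.2 hab)))
  refine ⟨n, fun x => ?_⟩
  obtain ⟨z, hz, hzx⟩ := hn (mem_univ (π x))
  have : (MulAction.orbitRel G X) z x := Quotient.exact hzx
  rw [MulAction.orbitRel_apply] at this
  obtain ⟨g, hg⟩ := this
  refine ⟨g, ?_⟩
  have hg' : g • x = z := hg
  rw [hg']
  exact (Metric.mem_ball.1 hz).le

theorem main [ProperSpace X] {σ : X × X × unitInterval → X} (hσ : IsBicombing σ)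
    (hc : IsConsistent σ) (G : Type*) [Group G] [MulAction G X] [IsIsometricSMul G X]
    [CompactSpace (Quotient (MulAction.orbitRel G X))] :
    IsEmpty (Boundary σ) ∨ Nontrivial (Boundary σ) := by
  rcases isEmpty_or_nonempty (Boundary σ) with h | ⟨⟨q⟩⟩
  · exact Or.inl h
  right
  obtain ⟨⟨ζ, hζ⟩, -⟩ := Quotient.exists_rep q
  let o : X := ζ 0
  obtain ⟨R, hR⟩ := exists_radius G o
  choose g hg using fun n : ℕ => hR (ζ (n : ℝ≥0))
  let y : ℕ → X := fun n => g n • ζ 0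
  let z : ℕ → X := fun n => g n • ζ (2 * (n : ℝ≥0))
  have dym : ∀ n : ℕ, dist (y n) (g n • ζ (n : ℝ≥0)) = n := by
    intro n
    simp only [y]
    rw [dist_smul, hζ.isometry.dist_eq, NNReal.dist_eq]
    simp
  have dzm : ∀ n : ℕ, dist (z n) (g n • ζ (n : ℝ≥0)) = n := by
    intro n
    simp only [z]
    rw [dist_smul, hζ.isometry.dist_eq, NNReal.dist_eq]
    push_cast
    rw [abs_of_nonneg (by have : (0 : ℝ) ≤ n := Nat.cast_nonneg n; linarith)]
    ring
  have dyz : ∀ n : ℕ, dist (y n) (z n) = 2 * n := by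
    intro n
    simp only [y, z]
    rw [dist_smul, hζ.isometry.dist_eq, NNReal.dist_eq]
    push_cast
    rw [abs_of_nonpos (by have : (0 : ℝ) ≤ n := Nat.cast_nonneg n; linarith)]
    ring
  have upper : ∀ (w : ℕ → X), (∀ n : ℕ, dist (w n) (g n • ζ (n : ℝ≥0)) = n) →
      ∀ n : ℕ, dist o (w n) ≤ n + R := by
    intro w hw n
    have := dist_triangle_right o (w n) (g n • ζ (n : ℝ≥0))
    have h2 := hg n
    rw [dist_comm] at h2
    linarith [hw n]
  let 𝒰 : Ultrafilter ℕ := hyperfilter ℕ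
  have lower : ∀ (w : ℕ → X), (∀ n : ℕ, dist (w n) (g n • ζ (n : ℝ≥0)) = n) →
      Tendsto (fun n => dist o (w n)) 𝒰 atTop := by
    intro w hw
    have h1 : Tendsto (fun n : ℕ => (n : ℝ) + (-R)) atTop atTop :=
      tendsto_atTop_add_const_right _ _ tendsto_natCast_atTop_atTop
    have h2 : Tendsto (fun n => dist o (w n)) atTop atTop := by
      refine tendsto_atTop_mono (fun n => ?_) h1
      have := dist_triangle_left (w n) (g n • ζ (n : ℝ≥0)) o
      have h2 := hg n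
      rw [dist_comm] at h2
      linarith [hw n]
    exact h2.mono_left (Nat.hyperfilter_le_atTop)
  obtain ⟨ξ, hξ, hξt⟩ := limit_ray hσ hc o y 𝒰 (lower y dym)
  obtain ⟨η, hη, hηt⟩ := limit_ray hσ hc o z 𝒰 (lower z dzm)
  have key : ∀ t : ℝ≥0, 2 * (t : ℝ) - 2 * R ≤ dist (ξ t) (η t) := by
    intro t
    refine ge_of_tendsto ((hξt t).dist (hηt t)) ?_
    filter_upwards [(lower y dym).eventually_gt_atTop 0, (lower y dym).eventually_ge_atTop (t : ℝ),
      (lower z dzm).eventually_gt_atTop 0, (lower z dzm).eventually_ge_atTop (t : ℝ)]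
      with n a b c d
    have e1 := seg_dist_end hσ o (y n) a b
    have e2 := seg_dist_end hσ o (z n) c d
    have e3 := dist_triangle4 (y n) (seg σ o (y n) t) (seg σ o (z n) t) (z n)
    rw [dist_comm (y n) (seg σ o (y n) t)] at e3
    linarith [dyz n, upper y dym n, upper z dzm n]
  refine ⟨⟨Quotient.mk (raySetoid σ) ⟨ξ, hξ⟩, Quotient.mk (raySetoid σ) ⟨η, hη⟩, fun h => ?_⟩⟩
  obtain ⟨C, hC⟩ : ∃ C : ℝ, ∀ t : ℝ≥0, dist (ξ t) (η t) ≤ C := Quotient.exact h
  have h1 := key ⟨|C| + |R| + 1, by positivity⟩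
  have h2 := hC ⟨|C| + |R| + 1, by positivity⟩
  change 2 * (|C| + |R| + 1) - 2 * R ≤ _ at h1
  linarith [le_abs_self C, le_abs_self R, abs_nonneg C]

end Pool.Agent.H519Z.Bicomb
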